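import Mathlib
import Pool.Agent.H158.LS10

/-!
# MP_e9346b_an: a ground state exists at the threshold coupling `λ_{μ,ν}`

The definitions of `H¹(ℝ^N)` (with weak gradients), the energy, the Nehari set, the level
`m_{μ,ν,λ}`, solutions, ground states, `S`, `C_{p+1}` and `μ₀` are in `Pool.Agent.H158.LSDefs`.
-/

set_option autoImplicit false

open MeasureTheory Filter Topology Set

namespace Pool.Agent.Results.MP_e9346b_an.ThresholdGroundState

open Pool.Agent.H158.LSD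

/-- `λ_{μ,ν} = inf {λ < √(μν) : m_{μ,ν,τ} < (1/N) S^{N/2} for all τ ∈ [λ, √(μν))}` -/
noncomputable def lamThreshold (N : ℕ) (p μ ν : ℝ) : ℝ :=
  sInf {l : ℝ | l < √(μ * ν) ∧ ∀ τ, l ≤ τ → τ < √(μ * ν) →
    level N p μ ν τ < 1 / N * S N ^ ((N:ℝ) / 2)}

/-- For all `N ≥ 3`, `1 < p < 2^* - 1`, `μ > μ₀`, `ν > 0` the system has a ground state at the
threshold coupling `λ_{μ,ν}`; in fact, for `0 < λ < √(μν)`, a ground state exists if and only if
`λ ≥ λ_{μ,ν}`. -/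
theorem result (N : ℕ) (hN : 3 ≤ N) (p : ℝ) (hp : 1 < p) (hp2 : p < crit N - 1) (μ ν : ℝ)
    (hμ : mu0 N p < μ) (hν : 0 < ν) :
    0 < mu0 N p ∧ √((μ - mu0 N p) * ν) ≤ lamThreshold N p μ ν ∧
      lamThreshold N p μ ν < √(μ * ν) ∧
      (∃ X : Pair N, IsGroundState p μ ν (lamThreshold N p μ ν) X) ∧
      ∀ l : ℝ, 0 < l → l < √(μ * ν) →
        ((∃ X : Pair N, IsGroundState p μ ν l X) ↔ lamThreshold N p μ ν ≤ l) := by
  obtain ⟨h0, h1, h2, h3, h4⟩ := Pool.Agent.H158.LS.full N hN p hp hp2 μ ν hμ hν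
  have e : lamThreshold N p μ ν = sInf (Pool.Agent.H158.LS.GSet N (p + 1) μ ν) := by
    unfold lamThreshold
    rw [Pool.Agent.H158.LS.tset_eq, h4]
  have hpos : 0 < √((μ - mu0 N p) * ν) := Real.sqrt_pos.2 (mul_pos (by linarith) hν)
  rw [e]
  have key : ∀ l : ℝ, 0 < l → l < √(μ * ν) → ((∃ X : Pair N, IsGroundState p μ ν l X) ↔
      sInf (Pool.Agent.H158.LS.GSet N (p + 1) μ ν) ≤ l) := by
    intro l hl0 hl
    constructor
    · intro hX
      have hm : l ∈ Pool.Agent.H158.LS.GSet N (p + 1) μ ν := by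
        rw [← Pool.Agent.H158.LS.gset_eq]
        exact ⟨hl0, hl, hX⟩
      rw [h3] at hm
      exact hm.1
    · intro hle
      have hm : l ∈ Pool.Agent.H158.LS.GSet N (p + 1) μ ν := by
        rw [h3]; exact ⟨hle, hl⟩
      rw [← Pool.Agent.H158.LS.gset_eq] at hm
      exact hm.2.2
  exact ⟨h0, h1, h2, (key _ (hpos.trans_le h1) h2).2 le_rfl, key⟩

end Pool.Agent.Results.MP_e9346b_an.ThresholdGroundState
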